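import Mathlib

/-!
Truncated alternating sums.
-/

namespace Pool.Agent.Helper6.RD

open Finset

/-- truncated expansion of `(1 - p) ^ n` -/
noncomputable def bs (K n : ℕ) (p : ℝ) : ℝ := ∑ k ∈ range (K + 1), (-1) ^ k * (n.choose k) * p ^ k

theorem bs_zero_left (n : ℕ) (p : ℝ) : bs 0 n p = 1 := by
  simp [bs]

theorem bs_zero_right (K : ℕ) (p : ℝ) : bs K 0 p = 1 := by
  unfold bs
  rw [sum_range_succ']
  simp

theorem bs_succ (K n : ℕ) (p : ℝ) : bs (K + 1) (n + 1) p = bs (K + 1) n p - p * bs K n p := by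
  unfold bs
  rw [sum_range_succ' (fun k => (-1 : ℝ) ^ k * ((n + 1).choose k) * p ^ k),
    sum_range_succ' (fun k => (-1 : ℝ) ^ k * (n.choose k) * p ^ k), mul_sum]
  have h1 : ∀ k ∈ range (K + 1), (-1 : ℝ) ^ (k + 1) * ((n + 1).choose (k + 1)) * p ^ (k + 1) =
      (-1 : ℝ) ^ (k + 1) * (n.choose (k + 1)) * p ^ (k + 1) -
        p * ((-1 : ℝ) ^ k * (n.choose k) * p ^ k) := by
    intro k _
    rw [Nat.choose_succ_succ]
    push_cast
    ring
  rw [sum_congr rfl h1, sum_sub_distrib]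
  simp
  ring

theorem bs_bound (n K : ℕ) (p : ℝ) (hp : 0 ≤ p) (hp1 : p ≤ 1) :
    |(1 - p) ^ n - bs K n p| ≤ (n.choose (K + 1)) * p ^ (K + 1) := by
  induction n generalizing K with
  | zero =>
    rw [bs_zero_right]
    simp
  | succ n ih =>
    cases K with
    | zero =>
      have h1 := ih 0
      rw [bs_zero_left] at h1 ⊢
      have h2 : (1 - p) ^ (n + 1) - 1 = ((1 - p) ^ n - 1) - p * (1 - p) ^ n := by ring
      have h3 : 0 ≤ (1 - p) ^ n := by
        apply pow_nonneg
        linarith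
      have h4 : (1 - p) ^ n ≤ 1 := pow_le_one₀ (by linarith) (by linarith)
      rw [h2]
      calc |((1 - p) ^ n - 1) - p * (1 - p) ^ n| ≤ |(1 - p) ^ n - 1| + |p * (1 - p) ^ n| :=
            abs_sub _ _
        _ ≤ (n.choose (0 + 1)) * p ^ (0 + 1) + p := by
            apply add_le_add h1
            rw [abs_of_nonneg (mul_nonneg hp h3)]
            nlinarith
        _ = _ := by
            simp
            ring
    | succ K =>
      rw [bs_succ]
      have h2 : (1 - p) ^ (n + 1) - (bs (K + 1) n p - p * bs K n p) =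
          ((1 - p) ^ n - bs (K + 1) n p) - p * ((1 - p) ^ n - bs K n p) := by ring
      rw [h2]
      calc _ ≤ |(1 - p) ^ n - bs (K + 1) n p| + |p * ((1 - p) ^ n - bs K n p)| := abs_sub _ _
        _ ≤ (n.choose (K + 1 + 1)) * p ^ (K + 1 + 1) + p * ((n.choose (K + 1)) * p ^ (K + 1)) := by
            apply add_le_add (ih (K + 1))
            rw [abs_mul, abs_of_nonneg hp]
            exact mul_le_mul_of_nonneg_left (ih K) hp
        _ = _ := by
            rw [Nat.choose_succ_succ n (K + 1)]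
            push_cast
            ring

/-- Lower bound for the truncated sums. -/
theorem exists_bs_lower (C : ℝ) (hC : 0 ≤ C) : ∃ (K : ℕ) (θ : ℝ), Odd K ∧ 0 < θ ∧ θ ≤ 1 / 2 ∧
    ∀ (n : ℕ) (p : ℝ), 0 ≤ p → p ≤ 1 / 2 → n * p ≤ C → θ ≤ bs K n p := by
  have hpos : (0 : ℝ) < Real.exp (-(2 * C)) / 2 := by positivity
  have htend := FloorSemiring.tendsto_pow_div_factorial_atTop C
  obtain ⟨K₀, hK₀⟩ := (htend.eventually (gt_mem_nhds hpos)).exists_forall_of_atTop
  refine ⟨2 * K₀ + 1, Real.exp (-(2 * C)) / 2, ⟨K₀, rfl⟩, hpos, ?_, fun n p hp hp2 hnp => ?_⟩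
  · have : Real.exp (-(2 * C)) ≤ 1 := Real.exp_le_one_iff.mpr (by linarith)
    linarith
  · have h1 := bs_bound n (2 * K₀ + 1) p hp (by linarith)
    have h2 := (abs_le.mp h1).2
    have h3 : (n.choose (2 * K₀ + 1 + 1) : ℝ) * p ^ (2 * K₀ + 1 + 1) ≤
        Real.exp (-(2 * C)) / 2 := by
      have h4 : (n.choose (2 * K₀ + 1 + 1) : ℝ) ≤
          (n : ℝ) ^ (2 * K₀ + 1 + 1) / (Nat.factorial (2 * K₀ + 1 + 1)) :=
        Nat.choose_le_pow_div _ _
      calc (n.choose (2 * K₀ + 1 + 1) : ℝ) * p ^ (2 * K₀ + 1 + 1)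
          ≤ (n : ℝ) ^ (2 * K₀ + 1 + 1) / (Nat.factorial (2 * K₀ + 1 + 1)) *
            p ^ (2 * K₀ + 1 + 1) := mul_le_mul_of_nonneg_right h4 (pow_nonneg hp _)
        _ = (n * p) ^ (2 * K₀ + 1 + 1) / (Nat.factorial (2 * K₀ + 1 + 1)) := by
            rw [mul_pow]
            ring
        _ ≤ C ^ (2 * K₀ + 1 + 1) / (Nat.factorial (2 * K₀ + 1 + 1)) := by
            apply div_le_div_of_nonneg_right _ (by positivity)
            exact pow_le_pow_left₀ (by positivity) hnp _
        _ ≤ _ := (hK₀ (2 * K₀ + 1 + 1) (by omega)).le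
    have h5 : Real.exp (-(2 * C)) ≤ (1 - p) ^ n := by
      have h6 : Real.exp (-(2 * p)) ≤ 1 - p := by
        have h7 : 0 < 1 - p := by linarith
        have h8 := Real.one_sub_inv_le_log_of_pos h7
        have h9 : -(2 * p) ≤ 1 - (1 - p)⁻¹ := by
          have h10 : (1 - p)⁻¹ ≤ 1 + 2 * p := by
            rw [inv_le_iff_one_le_mul₀ h7]
            nlinarith
          linarith
        calc Real.exp (-(2 * p)) ≤ Real.exp (Real.log (1 - p)) :=
              Real.exp_le_exp.mpr (h9.trans h8)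
          _ = 1 - p := Real.exp_log h7
      calc Real.exp (-(2 * C)) ≤ Real.exp (n * (-(2 * p))) := by
            apply Real.exp_le_exp.mpr
            nlinarith
        _ = Real.exp (-(2 * p)) ^ n := Real.exp_nat_mul _ _
        _ ≤ (1 - p) ^ n := pow_le_pow_left₀ (Real.exp_pos _).le h6 n
    linarith

/-- Bonferroni's inequality, pointwise. -/
theorem bonferroni (N K : ℕ) (hK : Odd K) :
    (∑ k ∈ range (K + 1), (-1 : ℝ) ^ k * (N.choose k)) ≤ if N = 0 then 1 else 0 := by
  cases N with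
  | zero =>
    rw [sum_range_succ']
    simp
  | succ n =>
    rw [if_neg (by omega)]
    have h1 := Int.alternating_sum_range_choose_eq_choose (n := n) (m := K)
    have h2 : (∑ k ∈ range (K + 1), (-1 : ℝ) ^ k * ((n + 1).choose k)) =
        ((∑ k ∈ range (K + 1), ((-1) ^ k * (n + 1).choose k : ℤ) : ℤ) : ℝ) := by
      push_cast
      rfl
    rw [h2, h1, hK.neg_one_pow]
    push_cast
    have : (0 : ℝ) ≤ n.choose K := by positivity
    linarith

end Pool.Agent.Helper6.RD
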