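import Pool.Agent.Helper6.RD.Fiber

/-!
Uniform upper bound for the number of points over finite fields of the fibres of a finitely
generated algebra over a Noetherian ring.
-/

namespace Pool.Agent.Helper6.RD

open TensorProduct

section count

variable {R A : Type*} [CommRing R] [CommRing A] [Algebra R A]

open Classical in
/-- Given relations for a set of generators, bound for the number of homomorphisms. -/
theorem encard_le_of_relations (p : Ideal R) {s n : ℕ} (b : Fin s → A) (a : Fin n → A)
    (hgen : ∀ (F : Type) [Field F] (φ φ' : A →+* F),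
      φ.comp (algebraMap R A) = φ'.comp (algebraMap R A) → (∀ i, φ (a i) = φ' (a i)) → φ = φ')
    (m g : Fin n → R) (P : Fin n → Polynomial (MvPolynomial (Fin s) R)) (hP : ∀ i, (P i).Monic)
    (hrel : ∀ i, algebraMap R A (g i) * (P i).eval₂ (MvPolynomial.aeval b).toRingHom
      (algebraMap R A (m i) * a i) ∈ p.map (algebraMap R A))
    (F : Type) [Field F] [Fintype F] (ψ : R →+* F) (hψ : ∀ x ∈ p, ψ x = 0)
    (hm : ∀ i, ψ (m i) ≠ 0) (hg : ∀ i, ψ (g i) ≠ 0) :
    Set.encard {φ : A →+* F | φ.comp (algebraMap R A) = ψ} ≤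
      ((∏ i, (P i).natDegree) * Fintype.card F ^ s : ℕ) := by
  -- the finite set of possible values
  let q : (Fin s → F) → Fin n → Polynomial F := fun β i =>
    (P i).map (MvPolynomial.eval₂Hom ψ β)
  let rts : (Fin s → F) → Fin n → Finset F := fun β i =>
    Finset.univ.filter fun v => (q β i).eval (ψ (m i) * v) = 0
  have hrts : ∀ β i, (rts β i).card ≤ (P i).natDegree := by
    intro β i
    have hq : (q β i).Monic := (hP i).map _
    have h1 : (rts β i).image (fun v => ψ (m i) * v) ⊆ (q β i).roots.toFinset := by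
      intro w hw
      rw [Finset.mem_image] at hw
      obtain ⟨v, hv, rfl⟩ := hw
      rw [Multiset.mem_toFinset, Polynomial.mem_roots hq.ne_zero]
      exact (Finset.mem_filter.mp hv).2
    have h2 : ((rts β i).image (fun v => ψ (m i) * v)).card = (rts β i).card :=
      Finset.card_image_of_injective _ fun v w h => mul_left_cancel₀ (hm i) h
    calc (rts β i).card = ((rts β i).image (fun v => ψ (m i) * v)).card := h2.symm
      _ ≤ (q β i).roots.toFinset.card := Finset.card_le_card h1
      _ ≤ Multiset.card (q β i).roots := Multiset.toFinset_card_le _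
      _ ≤ (q β i).natDegree := Polynomial.card_roots' _
      _ ≤ (P i).natDegree := Polynomial.natDegree_map_le
  let U : Finset ((_ : Fin s → F) × (Fin n → F)) :=
    Finset.univ.sigma fun β => Fintype.piFinset fun i => rts β i
  have hU : U.card ≤ (∏ i, (P i).natDegree) * Fintype.card F ^ s := by
    rw [Finset.card_sigma]
    calc ∑ β : Fin s → F, (Fintype.piFinset fun i => rts β i).card
        ≤ ∑ _β : Fin s → F, ∏ i, (P i).natDegree := Finset.sum_le_sum fun β _ => by
          rw [Fintype.card_piFinset]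
          exact Finset.prod_le_prod' fun i _ => hrts β i
      _ = _ := by
        rw [Finset.sum_const, Finset.card_univ, Fintype.card_fun, Fintype.card_fin, smul_eq_mul,
          mul_comm]
  let Φ : (A →+* F) → (_ : Fin s → F) × (Fin n → F) := fun φ => ⟨fun j => φ (b j), fun i => φ (a i)⟩
  have hinj : Set.InjOn Φ {φ : A →+* F | φ.comp (algebraMap R A) = ψ} := by
    intro φ hφ φ' hφ' h
    have h1 : (Φ φ).2 = (Φ φ').2 := by rw [h]
    exact hgen F φ φ' (hφ.trans hφ'.symm) fun i => congrFun h1 i
  have himg : Φ '' {φ : A →+* F | φ.comp (algebraMap R A) = ψ} ⊆ (U : Set _) := by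
    rintro _ ⟨φ, hφ, rfl⟩
    rw [Finset.mem_coe, Finset.mem_sigma]
    refine ⟨Finset.mem_univ _, ?_⟩
    rw [Fintype.mem_piFinset]
    intro i
    rw [Finset.mem_filter]
    refine ⟨Finset.mem_univ _, ?_⟩
    have hφ' : ∀ x, φ (algebraMap R A x) = ψ x := fun x => by
      rw [← hφ]
      rfl
    have h1 : ∀ z ∈ p.map (algebraMap R A), φ z = 0 := by
      intro z hz
      have h2 : p.map (algebraMap R A) ≤ RingHom.ker φ := by
        rw [Ideal.map_le_iff_le_comap]
        intro x hx
        rw [Ideal.mem_comap, RingHom.mem_ker, hφ']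
        exact hψ x hx
      exact h2 hz
    have h3 := h1 _ (hrel i)
    rw [map_mul, hφ', mul_eq_zero, or_iff_right (hg i), Polynomial.hom_eval₂, map_mul, hφ'] at h3
    show ((P i).map (MvPolynomial.eval₂Hom ψ fun j => φ (b j))).eval (ψ (m i) * φ (a i)) = 0
    rw [Polynomial.eval_map]
    have h4 : φ.comp (MvPolynomial.aeval b).toRingHom =
        MvPolynomial.eval₂Hom ψ fun j => φ (b j) := by
      apply MvPolynomial.ringHom_ext
      · intro r
        simp [hφ']
      · intro j
        simp
    rw [← h4]
    exact h3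
  calc Set.encard {φ : A →+* F | φ.comp (algebraMap R A) = ψ}
      = Set.encard (Φ '' {φ : A →+* F | φ.comp (algebraMap R A) = ψ}) := hinj.encard_image.symm
    _ ≤ Set.encard (U : Set _) := Set.encard_le_encard himg
    _ = (U.card : ℕ∞) := Set.encard_coe_eq_coe_finsetCard U
    _ ≤ _ := by exact_mod_cast hU

theorem prime_case (p : Ideal R) [p.IsPrime] [Algebra.FiniteType R A] (e : ℕ)
    (hdim : ringKrullDim (p.Fiber A) ≤ e) :
    ∃ (C : ℕ) (g : R), g ∉ p ∧ ∀ (F : Type) [Field F] [Fintype F] (ψ : R →+* F),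
      (∀ x ∈ p, ψ x = 0) → ψ g ≠ 0 →
      Set.encard {φ : A →+* F | φ.comp (algebraMap R A) = ψ} ≤ (C * Fintype.card F ^ e : ℕ) := by
  classical
  rcases subsingleton_or_nontrivial (p.Fiber A) with hsub | hnt
  · obtain ⟨g, hg, hg'⟩ := exists_smul_mem (A := A) p 1 (Subsingleton.elim _ _)
    refine ⟨0, g, hg, fun F _ _ ψ hψ hψg => ?_⟩
    have hempty : {φ : A →+* F | φ.comp (algebraMap R A) = ψ} = ∅ := by
      rw [Set.eq_empty_iff_forall_notMem]
      intro φ hφ
      have hφ' : ∀ x, φ (algebraMap R A x) = ψ x := fun x => by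
        rw [← (hφ : φ.comp (algebraMap R A) = ψ)]
        rfl
      have h2 : p.map (algebraMap R A) ≤ RingHom.ker φ := by
        rw [Ideal.map_le_iff_le_comap]
        intro x hx
        rw [Ideal.mem_comap, RingHom.mem_ker, hφ']
        exact hψ x hx
      have h3 := h2 hg'
      rw [RingHom.mem_ker, map_mul, hφ', map_one, mul_one] at h3
      exact hψg h3
    rw [hempty, Set.encard_empty]
    exact zero_le
  · -- Noether normalisation of the fibre
    obtain ⟨s, g₀, hinj, hint⟩ := exists_integral_inj_algHom_of_fg p.ResidueField (p.Fiber A)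
    have hs : s ≤ e := by
      let _ : Algebra (MvPolynomial (Fin s) p.ResidueField) (p.Fiber A) := g₀.toRingHom.toAlgebra
      have : FaithfulSMul (MvPolynomial (Fin s) p.ResidueField) (p.Fiber A) := by
        rw [faithfulSMul_iff_algebraMap_injective]
        exact hinj
      have hint' : Algebra.IsIntegral (MvPolynomial (Fin s) p.ResidueField) (p.Fiber A) := ⟨hint⟩
      have h1 : ringKrullDim (MvPolynomial (Fin s) p.ResidueField) ≤ ringKrullDim (p.Fiber A) :=
        Pool.Agent.Helper36.ringKrullDim_le_of_integral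
      rw [MvPolynomial.ringKrullDim_of_isNoetherianRing, ringKrullDim_eq_zero_of_field, zero_add,
        Nat.card_fin] at h1
      exact_mod_cast h1.trans hdim
    have hlift : ∀ j : Fin s, ∃ r ∉ p, ∃ b : A,
        r • g₀ (MvPolynomial.X j) = (1 ⊗ₜ[R] b : p.Fiber A) := fun j =>
      Ideal.Fiber.exists_smul_eq_one_tmul p _
    choose r hr b hb using hlift
    -- rescaled coordinates are still integral
    have hint' : (toFiber p b).toRingHom.IsIntegral := by
      let sc : MvPolynomial (Fin s) p.ResidueField →ₐ[p.ResidueField]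
          MvPolynomial (Fin s) p.ResidueField :=
        MvPolynomial.aeval fun j =>
          MvPolynomial.C (algebraMap R p.ResidueField (r j))⁻¹ * MvPolynomial.X j
      have hcomp : (toFiber p b).comp sc = g₀ := by
        apply MvPolynomial.algHom_ext
        intro j
        rw [AlgHom.comp_apply, MvPolynomial.aeval_X, map_mul, MvPolynomial.algHom_C]
        unfold toFiber
        rw [MvPolynomial.aeval_X, ← hb j, ← Algebra.smul_def, ← algebraMap_smul p.ResidueField
          (r j), smul_smul, inv_mul_cancel₀, one_smul]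
        intro h0
        exact hr j ((Ideal.algebraMap_residueField_eq_zero).mp h0)
      have h1 : ((toFiber p b).toRingHom.comp sc.toRingHom).IsIntegral := by
        have h2 : (toFiber p b).toRingHom.comp sc.toRingHom = g₀.toRingHom := by
          rw [← hcomp]
          rfl
        rw [h2]
        exact hint
      exact RingHom.IsIntegral.tower_top _ _ h1
    -- generators of `A`
    obtain ⟨n, f, hf⟩ := Algebra.FiniteType.iff_quotient_mvPolynomial''.mp
      (inferInstance : Algebra.FiniteType R A)
    have hrel := fun i : Fin n => exists_relation p b hint' (f (MvPolynomial.X i))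
    choose m g P hm hg hP hrel using hrel
    have hgen : ∀ (F : Type) [Field F] (φ φ' : A →+* F),
        φ.comp (algebraMap R A) = φ'.comp (algebraMap R A) →
        (∀ i, φ (f (MvPolynomial.X i)) = φ' (f (MvPolynomial.X i))) → φ = φ' := by
      intro F _ φ φ' h h'
      have h1 : φ.comp f.toRingHom = φ'.comp f.toRingHom := by
        apply MvPolynomial.ringHom_ext
        · intro x
          have := congrArg (fun θ => θ x) h
          simpa using this
        · intro i
          exact h' i
      apply RingHom.ext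
      intro x
      obtain ⟨y, rfl⟩ := hf x
      exact congrArg (fun θ => θ y) h1
    refine ⟨∏ i, (P i).natDegree, ∏ i, (m i * g i), ?_, fun F _ _ ψ hψ hψg => ?_⟩
    · intro h
      rw [Ideal.IsPrime.prod_mem_iff] at h
      obtain ⟨i, -, hi⟩ := h
      rcases ‹p.IsPrime›.mem_or_mem hi with h | h
      · exact hm i h
      · exact hg i h
    · rw [map_prod, Finset.prod_ne_zero_iff] at hψg
      have hmg : ∀ i, ψ (m i) ≠ 0 ∧ ψ (g i) ≠ 0 := fun i => by
        have := hψg i (Finset.mem_univ i)
        rw [map_mul] at this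
        exact ⟨left_ne_zero_of_mul this, right_ne_zero_of_mul this⟩
      refine (encard_le_of_relations p b _ hgen m g P hP hrel F ψ hψ (fun i => (hmg i).1)
        (fun i => (hmg i).2)).trans ?_
      have : Fintype.card F ^ s ≤ Fintype.card F ^ e := Nat.pow_le_pow_right Fintype.card_pos hs
      exact_mod_cast Nat.mul_le_mul_left _ this

/-- **Uniform bound for the number of points in the fibres over finite fields**, when the fibres
over the generic point of the spectrum of a domain `R₀` have dimension at most `e`. -/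
theorem encard_points_le {R₀ : Type*} [CommRing R₀] [IsDomain R₀] [Algebra R₀ R]
    [IsNoetherianRing R] [Algebra.FiniteType R A] (e : ℕ)
    (hdim : ∀ (p : Ideal R) [p.IsPrime], p.comap (algebraMap R₀ R) = ⊥ →
      ringKrullDim (p.Fiber A) ≤ e) :
    ∃ (C : ℕ) (g : R₀), g ≠ 0 ∧ ∀ (F : Type) [Field F] [Fintype F] (ψ : R →+* F),
      ψ (algebraMap R₀ R g) ≠ 0 →
      Set.encard {φ : A →+* F | φ.comp (algebraMap R A) = ψ} ≤ (C * Fintype.card F ^ e : ℕ) := by
  suffices h : ∀ I : Ideal R, ∃ (C : ℕ) (g : R₀), g ≠ 0 ∧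
      ∀ (F : Type) [Field F] [Fintype F] (ψ : R →+* F),
      ψ (algebraMap R₀ R g) ≠ 0 → (∀ x ∈ I, ψ x = 0) →
      Set.encard {φ : A →+* F | φ.comp (algebraMap R A) = ψ} ≤ (C * Fintype.card F ^ e : ℕ) by
    obtain ⟨C, g, hg, hC⟩ := h ⊥
    refine ⟨C, g, hg, fun F _ _ ψ hψg => hC F ψ hψg fun x hx => ?_⟩
    rw [Ideal.mem_bot] at hx
    rw [hx, map_zero]
  intro I
  induction I using IsNoetherian.induction with
  | hgt I ih =>
    -- bound for larger ideals
    have hadd : ∀ a, a ∉ I → ∃ (C : ℕ) (g : R₀), g ≠ 0 ∧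
        ∀ (F : Type) [Field F] [Fintype F] (ψ : R →+* F),
        ψ (algebraMap R₀ R g) ≠ 0 → (∀ x ∈ I, ψ x = 0) → ψ a = 0 →
        Set.encard {φ : A →+* F | φ.comp (algebraMap R A) = ψ} ≤
          (C * Fintype.card F ^ e : ℕ) := by
      intro a ha
      obtain ⟨C, g, hg, hC⟩ := ih (I ⊔ Ideal.span {a}) (by
        refine lt_of_le_of_ne le_sup_left ?_
        intro h
        apply ha
        rw [h]
        exact Ideal.mem_sup_right (Ideal.mem_span_singleton_self a))
      refine ⟨C, g, hg, fun F _ _ ψ hψg hψ hψa => hC F ψ hψg fun x hx => ?_⟩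
      have h1 : I ⊔ Ideal.span {a} ≤ RingHom.ker ψ := by
        apply sup_le
        · intro x hx
          exact hψ x hx
        · rw [Ideal.span_singleton_le_iff_mem]
          exact hψa
      exact h1 hx
    have hmono : ∀ (C C' : ℕ) (F : Type) [Field F] [Fintype F] (N : ℕ∞), C ≤ C' →
        N ≤ (C * Fintype.card F ^ e : ℕ) → N ≤ (C' * Fintype.card F ^ e : ℕ) := by
      intro C C' F _ _ N h hN
      refine hN.trans ?_
      exact_mod_cast Nat.mul_le_mul_right _ h
    by_cases htop : I = ⊤
    · refine ⟨0, 1, one_ne_zero, fun F _ _ ψ _ hψ => ?_⟩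
      exact absurd (hψ 1 (by rw [htop]; trivial)) (by rw [map_one]; exact one_ne_zero)
    by_cases hprime : Ideal.IsPrime I
    · have := hprime
      by_cases hcomap : Ideal.comap (algebraMap R₀ R) I = ⊥
      · obtain ⟨C, g, hg, hC⟩ := prime_case (A := A) I e (hdim I hcomap)
        obtain ⟨C', g', hg', hC'⟩ := hadd g hg
        refine ⟨C + C', g', hg', fun F _ _ ψ hψg' hψ => ?_⟩
        by_cases hψg : ψ g = 0
        · exact hmono C' _ F _ (Nat.le_add_left _ _) (hC' F ψ hψg' hψ hψg)
        · exact hmono C _ F _ (Nat.le_add_right _ _) (hC F ψ hψ hψg)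
      · obtain ⟨g, hg, hg0⟩ := Submodule.exists_mem_ne_zero_of_ne_bot hcomap
        refine ⟨0, g, hg0, fun F _ _ ψ hψg hψ => ?_⟩
        exact absurd (hψ _ hg) hψg
    · obtain ⟨a, ha, b, hb, hab⟩ := (Ideal.not_isPrime_iff.mp hprime).resolve_left htop
      obtain ⟨C, g, hg, hC⟩ := hadd a ha
      obtain ⟨C', g', hg', hC'⟩ := hadd b hb
      refine ⟨C + C', g * g', mul_ne_zero hg hg', fun F _ _ ψ hψg hψ => ?_⟩
      rw [map_mul, map_mul] at hψg
      have h1 := hψ _ hab
      rw [map_mul, mul_eq_zero] at h1
      rcases h1 with h1 | h1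
      · exact hmono C _ F _ (Nat.le_add_right _ _) (hC F ψ (left_ne_zero_of_mul hψg) hψ h1)
      · exact hmono C' _ F _ (Nat.le_add_left _ _) (hC' F ψ (right_ne_zero_of_mul hψg) hψ h1)

end count

end Pool.Agent.Helper6.RD
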