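import Pool.Agent.Helper36.Krull

/-!
Points over finite fields of the fibres of a finitely generated algebra: the generic case.
-/

namespace Pool.Agent.Helper6.RD

open TensorProduct

section K1

variable {R A : Type*} [CommRing R] [CommRing A] [Algebra R A] (p : Ideal R) [p.IsPrime]

attribute [local instance] Algebra.TensorProduct.rightAlgebra in
/-- An element of `A` vanishing in the fibre at `p` lies in `pA` up to an element outside `p`. -/
theorem exists_smul_mem (a : A) (h : (1 ⊗ₜ[R] a : p.Fiber A) = 0) :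
    ∃ g : R, g ∉ p ∧ algebraMap R A g * a ∈ p.map (algebraMap R A) := by
  let e := Ideal.Fiber.algEquivAux₁ (S := A) p
  have h1 : algebraMap A (p.Fiber A) a = 0 := h
  have h2 := congrArg e h1
  rw [map_zero, AlgEquiv.commutes] at h2
  have h3 : algebraMap A (Localization (Algebra.algebraMapSubmonoid A p.primeCompl)) a ∈
      (p.map (algebraMap R A)).map
        (algebraMap A (Localization (Algebra.algebraMapSubmonoid A p.primeCompl))) := by
    rw [← Ideal.Quotient.eq_zero_iff_mem]
    exact h2
  rw [IsLocalization.mem_map_algebraMap_iff (Algebra.algebraMapSubmonoid A p.primeCompl)] at h3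
  obtain ⟨⟨⟨x, hx⟩, ⟨_, ⟨m, hm, rfl⟩⟩⟩, hxm⟩ := h3
  rw [← map_mul] at hxm
  obtain ⟨⟨_, ⟨c, hc, rfl⟩⟩, hcx⟩ :=
    (IsLocalization.eq_iff_exists (Algebra.algebraMapSubmonoid A p.primeCompl) _).mp hxm
  refine ⟨c * m, ?_, ?_⟩
  · intro hcm
    rcases (‹p.IsPrime›.mem_or_mem hcm) with h | h
    · exact hc h
    · exact hm h
  · have h4 : algebraMap R A (c * m) * a = algebraMap R A c * x := by
      rw [map_mul]
      calc _ = algebraMap R A c * (a * algebraMap R A m) := by ring
        _ = _ := hcx
    rw [h4]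
    exact Ideal.mul_mem_left _ _ hx

end K1

section relation

variable {R A : Type*} [CommRing R] [CommRing A] [Algebra R A] (p : Ideal R) [p.IsPrime]

/-- the homomorphism to the fibre given by lifts of coordinates -/
noncomputable def toFiber {s : ℕ} (b : Fin s → A) :
    MvPolynomial (Fin s) p.ResidueField →ₐ[p.ResidueField] p.Fiber A :=
  MvPolynomial.aeval fun j => (1 ⊗ₜ[R] b j : p.Fiber A)

theorem toFiber_comp {s : ℕ} (b : Fin s → A) :
    (((toFiber p b).toRingHom.comp (MvPolynomial.map (algebraMap (R ⧸ p) p.ResidueField))).comp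
      (MvPolynomial.map (Ideal.Quotient.mk p))) =
    (Algebra.TensorProduct.includeRight (R := R) (A := p.ResidueField) (B := A)).toRingHom.comp
      (MvPolynomial.aeval b).toRingHom := by
  apply MvPolynomial.ringHom_ext
  · intro r
    simp only [RingHom.comp_apply, MvPolynomial.map_C, AlgHom.toRingHom_eq_coe, RingHom.coe_coe,
      MvPolynomial.aeval_C]
    unfold toFiber
    rw [MvPolynomial.algHom_C]
    rw [Algebra.TensorProduct.includeRight_apply, Algebra.TensorProduct.algebraMap_apply]
    rw [Algebra.algebraMap_self_apply, Algebra.algebraMap_eq_smul_one r, TensorProduct.tmul_smul,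
      TensorProduct.smul_tmul', Algebra.smul_def, mul_one]
    rfl
  · intro j
    simp only [RingHom.comp_apply, MvPolynomial.map_X, AlgHom.toRingHom_eq_coe, RingHom.coe_coe,
      MvPolynomial.aeval_X]
    unfold toFiber
    rw [MvPolynomial.aeval_X]
    rfl

attribute [local instance] MvPolynomial.algebraMvPolynomial in
/-- Algebraic relation for an element integral over the coordinates in the fibre. -/
theorem exists_relation {s : ℕ} (b : Fin s → A)
    (hint : (toFiber p b).toRingHom.IsIntegral) (a : A) :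
    ∃ (m g : R) (P : Polynomial (MvPolynomial (Fin s) R)), m ∉ p ∧ g ∉ p ∧ P.Monic ∧
      algebraMap R A g * P.eval₂ (MvPolynomial.aeval b).toRingHom (algebraMap R A m * a) ∈
        p.map (algebraMap R A) := by
  let _ : Algebra (MvPolynomial (Fin s) p.ResidueField) (p.Fiber A) :=
    (toFiber p b).toRingHom.toAlgebra
  let _ : Algebra (MvPolynomial (Fin s) (R ⧸ p)) (p.Fiber A) :=
    ((toFiber p b).toRingHom.comp
      (MvPolynomial.map (algebraMap (R ⧸ p) p.ResidueField))).toAlgebra
  have htower : IsScalarTower (MvPolynomial (Fin s) (R ⧸ p))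
      (MvPolynomial (Fin s) p.ResidueField) (p.Fiber A) :=
    IsScalarTower.of_algebraMap_eq fun x => rfl
  have hx : IsIntegral (MvPolynomial (Fin s) p.ResidueField) (1 ⊗ₜ[R] a : p.Fiber A) := hint _
  obtain ⟨⟨_, ⟨m₁, hm₁, rfl⟩⟩, P₁, hP₁, hP₁'⟩ :=
    IsIntegral.exists_multiple_integral_of_isLocalization
      ((nonZeroDivisors (R ⧸ p)).map (MvPolynomial.C (σ := Fin s))) (1 ⊗ₜ[R] a : p.Fiber A) hx
  obtain ⟨m, rfl⟩ := Ideal.Quotient.mk_surjective m₁
  have hm : m ∉ p := by
    intro h
    rw [Ideal.Quotient.eq_zero_iff_mem.mpr h] at hm₁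
    exact zero_notMem_nonZeroDivisors hm₁
  have hsurj : Function.Surjective (MvPolynomial.map (σ := Fin s) (Ideal.Quotient.mk p)) :=
    MvPolynomial.map_surjective _ Ideal.Quotient.mk_surjective
  obtain ⟨P, hP, -, hPm⟩ := Polynomial.lifts_and_natDegree_eq_and_monic
    (f := MvPolynomial.map (σ := Fin s) (Ideal.Quotient.mk p)) (p := P₁)
    (by
      rw [Polynomial.mem_lifts]
      exact Polynomial.map_surjective _ hsurj P₁) hP₁
  have hval : (1 ⊗ₜ[R] (P.eval₂ (MvPolynomial.aeval b).toRingHom (algebraMap R A m * a)) :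
      p.Fiber A) = 0 := by
    have h1 : (1 ⊗ₜ[R] (P.eval₂ (MvPolynomial.aeval b).toRingHom (algebraMap R A m * a)) :
        p.Fiber A) = (Algebra.TensorProduct.includeRight (R := R) (A := p.ResidueField)
          (B := A)).toRingHom
          (P.eval₂ (MvPolynomial.aeval b).toRingHom (algebraMap R A m * a)) := rfl
    rw [h1, Polynomial.hom_eval₂, ← toFiber_comp, ← Polynomial.eval₂_map, hP]
    have h2 : (Algebra.TensorProduct.includeRight (R := R) (A := p.ResidueField)
          (B := A)).toRingHom (algebraMap R A m * a) =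
        MvPolynomial.C (σ := Fin s) (Ideal.Quotient.mk p m) • (1 ⊗ₜ[R] a : p.Fiber A) := by
      rw [Algebra.smul_def]
      have h3 := congrArg (fun f => f (MvPolynomial.C m)) (toFiber_comp p b)
      simp only [RingHom.comp_apply] at h3
      rw [MvPolynomial.map_C] at h3
      have h4 : algebraMap (MvPolynomial (Fin s) (R ⧸ p)) (p.Fiber A)
          (MvPolynomial.C (Ideal.Quotient.mk p m)) =
        (toFiber p b).toRingHom ((MvPolynomial.map (algebraMap (R ⧸ p) p.ResidueField))
          (MvPolynomial.C (Ideal.Quotient.mk p m))) := rfl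
      rw [h4, h3, map_mul]
      congr 2
      simp
    rw [h2]
    exact hP₁'
  obtain ⟨g, hg, hg'⟩ := exists_smul_mem p _ hval
  exact ⟨m, g, P, hm, hg, hPm, hg'⟩

end relation

end Pool.Agent.Helper6.RD
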